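import Pool.Agent.N110.SE.Stm

/-!
The degree of a correspondence is at most an intersection number.
-/

set_option autoImplicit false
set_option linter.overlappingInstances false
set_option linter.unusedSectionVars false

open Multiset Filter Topology FF Module
open Pool.Agent.W602.GT Pool.Agent.W603.LV Pool.Agent.Y172 Pool.Agent.Y191 Pool.Agent.R887
open Pool.Agent.N110.RK Pool.Agent.N110.SE Pool.Agent.N110

namespace Pool.Agent.N227.SE

open scoped ENNReal in
theorem leafSD : StmSD := by
  intro K _ _ N n y hy hn hn0 i hi r φ v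
  classical
  unfold corrDegree
  have hd : 0 < mapDegree (φ (ng v)) := mapDegree_pos hy.ess hn _
  have hd' : (0 : ℝ) < (mapDegree (φ (ng v)) : ℝ) := by exact_mod_cast hd
  rw [ENNReal.ofReal_div_of_pos hd', ENNReal.ofReal_natCast, ENNReal.ofReal_natCast]
  refine ENNReal.div_le_div_right ?_ _
  refine iSup_le fun u => iSup_le fun hu => iSup_le fun w => iSup_le fun hw => ?_
  rw [Nat.cast_le]
  have hcard : (eCls hy hn hi (φ (ps v)) (hcls hy hi) ::ₘ
      replicate (n - 1) (eCls hy hn hi (φ (ng v)) (hcls hy hi))).card = n := by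
    rw [Multiset.card_cons, Multiset.card_replicate]
    omega
  have e1 : degreeOver (fun _ : Fin 1 => φ (ps v) u) (fun b => φ (ng v) (w b)) =
      dm ℂ (({u} : Multiset K).map (φ (ps v)) + (toM w).map (φ (ng v))) := by
    refine deg_dm ?_ ?_
    · ext x
      simp only [Multiset.map_singleton, Multiset.mem_singleton, Set.mem_range]
      constructor
      · intro hx
        exact ⟨0, hx.symm⟩
      · rintro ⟨_, rfl⟩
        rfl
    · ext x
      change x ∈ (toM w).map (φ (ng v)) ↔ _
      rw [Multiset.mem_map, Set.mem_range]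
      constructor
      · rintro ⟨a, ha, rfl⟩
        obtain ⟨j, rfl⟩ := mem_toM.1 ha
        exact ⟨j, rfl⟩
      · rintro ⟨j, rfl⟩
        exact ⟨w j, mem_toM.2 ⟨j, rfl⟩, rfl⟩
  change degreeOver (fun _ : Fin 1 => φ (ps v) u) (fun b => φ (ng v) (w b)) ≤ _
  rw [e1]
  obtain ⟨Q', hQ', h1⟩ := replace_self hy hn hi (φ (ps v)) ({u} : Multiset K)
    ((toM w).map (φ (ng v)))
    (by rw [Multiset.card_add, Multiset.card_map, toM_card, Multiset.card_singleton]; omega)
    (fun z hz => by
      rw [Multiset.mem_singleton] at hz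
      rw [hz]
      exact hu)
  obtain ⟨Q'', hQ'', h2⟩ := replace_self hy hn hi (φ (ng v)) (toM w) Q'
    (by rw [Multiset.card_add, toM_card, hQ'.card, Multiset.card_replicate,
      Multiset.card_singleton]; omega)
    (fun z hz => by
      obtain ⟨j, rfl⟩ := mem_toM.1 hz
      exact hw j)
  rw [toM_card] at hQ''
  rw [Multiset.card_singleton] at hQ'
  rw [add_comm ((toM w).map (φ (ng v))) Q', add_comm Q'' Q'] at h2
  refine h1.trans (h2.trans ?_)
  have h3 := sel_add hQ' hQ''
  have e2 : replicate 1 (eCls hy hn hi (φ (ps v)) (hcls hy hi)) +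
      replicate (n - 1) (eCls hy hn hi (φ (ng v)) (hcls hy hi)) =
      eCls hy hn hi (φ (ps v)) (hcls hy hi) ::ₘ
      replicate (n - 1) (eCls hy hn hi (φ (ng v)) (hcls hy hi)) := by
    rw [Multiset.replicate_one, Multiset.singleton_add]
  rw [e2] at h3
  exact le_I (ctx hy hn hi) hcard h3

end Pool.Agent.N227.SE
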