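import Pool.Agent.N110.SE.Stm

/-!
The geometric system of commuting dominant rational self-maps.
-/

set_option autoImplicit false
set_option linter.overlappingInstances false
set_option linter.unusedSectionVars false

open Filter Topology FF Module
open Pool.Agent.W602.GT Pool.Agent.W603.LV Pool.Agent.Y172 Pool.Agent.Y191 Pool.Agent.R887
open Pool.Agent.N110.RK Pool.Agent.N110.SE Pool.Agent.N110 Pool.Agent.W619.PQ

namespace Pool.Agent.N227.SE

theorem leafSG : StmSG := by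
  intro K _ _ N n y hy hn hn0 i hi Δ hΔ hnef r φ hφ hP ν hν hnum
  classical
  have hess := hy.ess
  have cx := ctx hy hn hi
  obtain ⟨x, E, hx, hE⟩ := exists_crd hn (k := ℂ) (K := K)
  have hfr : IsFrame E := fun F => ⟨fun j => F (x j),
    (Pool.Agent.W73.PG.PULL.expand x hx E hE F).symm⟩
  obtain ⟨c, hcfin, hc⟩ := exists_ordc hy hn hx hE
  have hc' : IsDisc y E c := hc
  have hP1 : ∀ v, EPulls y c Δ (φ v) := fun v => epulls_of hy hn (hP v) hx hE hfr hc'
  obtain ⟨Hy, hHy, hHP⟩ := exists_hyp hy hi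
  -- the base point free systems
  have hseq : ∀ q : ℕ, ∃ (M : ℕ) (σ : K), 1 ≤ q → (1 ≤ M ∧ σ ≠ 0 ∧
      (∀ l, σ * (y l / y i) ∈ Lsp y c (M * q) ((M * q) • Δ + M • Hy)) ∧
      ∀ Q, Divisorial n Q → ∃ g, GenAt y c (M * q) ((M * q) • Δ + M • Hy) Q g) := by
    intro q
    by_cases hq : 1 ≤ q
    · obtain ⟨hM, hM1, σ, hσ, h2, h3⟩ := nef_seq hy hn hn0 hnef hi hfr hc' hHy hHP q hq
      exact ⟨hM, σ, fun _ => ⟨hM1, hσ, h2, h3⟩⟩
    · exact ⟨0, 0, fun h => absurd h hq⟩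
  choose Mq σ hMσ using hseq
  have hBex : ∀ q : ℕ, ∃ B : Cls ℂ (affS y i), 1 ≤ q →
      NefSys y i n c Δ Hy q (Mq q) (σ q) B := by
    intro q
    by_cases hq : 1 ≤ q
    · obtain ⟨hM, hσ, h2, h3⟩ := hMσ q hq
      refine ⟨secCls hy hi hcfin hΔ hHy (Mq q * q) (Mq q) hσ h2, fun _ => ⟨hM, hσ, fun v => ?_,
        h3⟩⟩
      rfl
    · exact ⟨hcls hy hi, fun h => absurd h hq⟩
  choose B hB using hBex
  obtain ⟨ε, hε, hbase⟩ := base_pos hy hn hi (x := x) hfr hc' hHy hHP hν hnum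
  have heps := eps_all hy hn hi hHP hB hν hε (fun q hq => hbase q (Mq q) (σ q) (B q) hq (hB q hq))
  -- the spaces
  obtain ⟨m, hm⟩ : ∃ m : ℕ → ℕ, ∀ q, m q = Mq (q + 1) * (q + 1) := ⟨_, fun _ => rfl⟩
  obtain ⟨b, hb⟩ : ∃ b : ℕ → ℕ, ∀ q, b q = Mq (q + 1) := ⟨_, fun _ => rfl⟩
  obtain ⟨g0, hg0d⟩ : ∃ g0 : ℕ → K, ∀ q, g0 q = σ (q + 1) := ⟨_, fun _ => rfl⟩
  have hb1 : ∀ q, 1 ≤ b q := fun q => by
    rw [hb]
    exact (hMσ (q + 1) (by omega)).1
  have hmb : ∀ q, m q = b q * (q + 1) := fun q => by rw [hm, hb]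
  have hg0 : ∀ q, g0 q ≠ 0 := fun q => by
    rw [hg0d]
    exact (hMσ (q + 1) (by omega)).2.1
  have hm1 : ∀ q, q + 1 ≤ m q := fun q => by
    rw [hmb]
    exact Nat.le_mul_of_pos_left _ (hb1 q)
  have hm1' : ∀ q, 1 ≤ m q := fun q => by have := hm1 q; omega
  have hmem0 : ∀ q l, g0 q * (y l / y i) ∈ Lsp y c (m q) (m q • Δ + b q • Hy) := by
    intro q l
    have := (hMσ (q + 1) (by omega)).2.2.1 l
    rw [← hb, ← hg0d, ← hmb] at this
    exact this
  have hmem : ∀ A : EffT y, ∀ q l,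
      g0 q * (y l / y i) ∈ Lsp y c (m q) (m q • Δ + b q • (Hy + A.A)) := by
    intro A q l
    refine Lsp_mono le_rfl hHy.1 (fun P hP => ?_) (hmem0 q l)
    have := A.eff.1 P hP
    change Hy P ≤ Hy P + A.A P
    linarith
  obtain ⟨M, hMV⟩ : ∃ M : EffT y → ℕ → Cls ℂ (affS y i), ∀ A q,
      M A q = secCls hy hi hcfin hΔ (Effective.add' hHy A.eff) (m q) (b q) (hg0 q)
        (hmem A q) := ⟨_, fun _ _ => rfl⟩
  have hMmem : ∀ A q v, v ∈ (M A q).V ↔
      g0 q * v ∈ Lsp y c (m q) (m q • Δ + b q • (Hy + A.A)) := by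
    intro A q v
    rw [hMV]
    rfl
  have hBM : ∀ A q v, v ∈ (B (q + 1)).V → v ∈ (M A q).V := by
    intro A q v hv
    rw [hMmem]
    have h2 := ((hB (q + 1) (by omega)).mem v).1 hv
    rw [← hb, ← hg0d, ← hmb] at h2
    refine Lsp_mono le_rfl hHy.1 (fun P hP => ?_) h2
    have := A.eff.1 P hP
    change Hy P ≤ Hy P + A.A P
    linarith
  obtain ⟨β, f, hf, hdom⟩ := dom_sections hy hi hcfin hΔ
  obtain ⟨t, ht⟩ : ∃ t : Multiset (Cls ℂ (affS y i)) → ℝ, t = fun s => (I s : ℝ) := ⟨_, rfl⟩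
  -- comparison after all maps
  have hLeW : ∀ (V V' : Cls ℂ (affS y i)) (g : K), g ≠ 0 → (∀ v ∈ V.V, g * v ∈ V'.V) →
      ∀ w, Le n t 1 (eCls hy hn hi (φ w) V) (eCls hy hn hi (φ w) V') := by
    intro V V' g hg0 hV w s hs
    rw [ht, one_mul]
    refine Nat.cast_le.2 (I_mono cx (g := φ w g) (by rwa [Ne, map_eq_zero]) ?_ hs)
    rintro _ ⟨v, hv, rfl⟩
    exact ⟨g * v, hV v hv, map_mul (φ w) g v⟩
  -- pull back
  have hMpull : ∀ ψ : K →ₐ[ℂ] K, EPulls y c Δ ψ → ∀ A : EffT y,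
      ∃ A' : EffT y, ∃ J : K, J ≠ 0 ∧ ∀ q, ∀ v ∈ (M A q).V,
        (J ^ m q * ψ (g0 q) / g0 q) * ψ v ∈ (M A' q).V := by
    intro ψ hψ A
    obtain ⟨J, hJ, B, hB, hB1⟩ := hψ (Hy + A.A) (Effective.add' hHy A.eff)
    refine ⟨⟨B, hB⟩, J, hJ, fun q v hv => ?_⟩
    rw [hMmem] at hv ⊢
    have e1 := hB1 (m q) (b q) (hm1' q) _ hv
    have e2 : g0 q * (J ^ m q * ψ (g0 q) / g0 q * ψ v) = J ^ m q * ψ (g0 q * v) := by
      rw [map_mul]
      have := hg0 q
      field_simp
    rw [e2]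
    refine Lsp_mono le_rfl hB.1 (fun P hP => ?_) e1
    have := hHy.1 P hP
    change B P ≤ Hy P + B P
    linarith
  -- the degrees
  have hφ0 : ∀ z, φ 0 z = z := by
    intro z
    have h1 := hφ 0 0
    rw [add_zero] at h1
    have h2 : φ 0 z = φ 0 (φ 0 z) := by
      conv_lhs => rw [h1]
      rfl
    exact ((φ 0).toRingHom.injective h2).symm
  have hφ0' : φ 0 = 1 := by
    ext z
    exact hφ0 z
  have hdpos : ∀ u, (0 : ℝ) < (mapDegree (φ u) : ℝ) := fun u => by
    exact_mod_cast mapDegree_pos hess hn (φ u)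
  have hI : ∀ u (s : Multiset (Cls ℂ (affS y i))), s.card = n →
      t (s.map (eCls hy hn hi (φ u))) = (mapDegree (φ u) : ℝ) * t s := by
    intro u s hs
    rw [ht]
    beta_reduce
    exact_mod_cast I_emap hy hn hi (φ u) hs
  have hmulD : ∀ u v, (mapDegree (φ (u + v)) : ℝ) = mapDegree (φ u) * mapDegree (φ v) := by
    intro u v
    have hs0 : (Multiset.replicate n (hcls hy hi)).card = n := Multiset.card_replicate _ _
    have h1 := hI (u + v) (Multiset.replicate n (hcls hy hi)) hs0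
    have h2 := hI v (Multiset.replicate n (hcls hy hi)) hs0
    have h3 := hI u ((Multiset.replicate n (hcls hy hi)).map (eCls hy hn hi (φ v)))
      (by rw [Multiset.card_map]; exact hs0)
    rw [h2, Multiset.map_map] at h3
    have e : (eCls hy hn hi (φ u)) ∘ (eCls hy hn hi (φ v)) = eCls hy hn hi (φ (u + v)) := by
      funext A
      change eCls hy hn hi (φ u) (eCls hy hn hi (φ v) A) = _
      rw [eCls_eCls, hφ]
    rw [e, h1] at h3
    have hpos : 0 < t (Multiset.replicate n (hcls hy hi)) := by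
      rw [ht]
      beta_reduce
      exact_mod_cast I_pos cx hs0
    have h4 : (mapDegree (φ (u + v)) : ℝ) * t (Multiset.replicate n (hcls hy hi)) =
        (mapDegree (φ u) * mapDegree (φ v) : ℝ) * t (Multiset.replicate n (hcls hy hi)) := by
      rw [h3]; ring
    exact mul_right_cancel₀ hpos.ne' h4
  have hexp : ∀ u : Fin r → ℕ, Real.exp (∑ j, Real.log (mapDegree (φ (Pi.single j 1)) : ℝ) *
      (u j : ℝ)) = mapDegree (φ u) := by
    intro u
    have h00 : (mapDegree (φ 0) : ℝ) = 1 := by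
      have h1 := hmulD 0 0
      rw [add_zero] at h1
      have h2 := hdpos 0
      have h3 : (mapDegree (φ 0) : ℝ) * (mapDegree (φ 0) : ℝ) = (mapDegree (φ 0) : ℝ) * 1 := by
        rw [mul_one]; exact h1.symm
      exact mul_left_cancel₀ h2.ne' h3
    let F : (Fin r → ℕ) →+ ℝ :=
      { toFun := fun u => Real.log (mapDegree (φ u) : ℝ)
        map_zero' := by rw [h00, Real.log_one]
        map_add' := fun u v => by rw [hmulD, Real.log_mul (hdpos u).ne' (hdpos v).ne'] }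
    have h1 : F u = ∑ j, Real.log (mapDegree (φ (Pi.single j 1)) : ℝ) * (u j : ℝ) := by
      conv_lhs => rw [← Finset.univ_sum_single u]
      rw [map_sum]
      refine Finset.sum_congr rfl fun j _ => ?_
      have e : (Pi.single j (u j) : Fin r → ℕ) = (u j) • Pi.single j 1 := by
        rw [← Pi.single_smul]
        simp
      rw [e, map_nsmul, nsmul_eq_mul, mul_comm]
      rfl
    rw [← h1]
    exact Real.exp_log (hdpos u)
  refine ⟨fun q => (m q : ℝ), M, β + 1, 1 / (2 * (Mq 1 : ℝ) ^ ν), ?_⟩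
  rw [← ht]
  refine ⟨?_, ?_, hn0, hν, by positivity, ?_, ?_, ?_, ?_, ?_, ?_, ?_, ?_, ?_, ?_, ?_⟩
  · -- pos
    intro s hs
    rw [ht]
    beta_reduce
    exact_mod_cast I_pos cx hs
  · -- ex
    rw [ht]
    exact exch cx
  · -- hε
    have : (0 : ℝ) < Mq 1 := by exact_mod_cast (hMσ 1 le_rfl).1
    positivity
  · -- zero
    funext A
    beta_reduce
    rw [hφ0', eCls_one]
    rfl
  · -- add
    intro u v
    funext A
    change _ = eCls hy hn hi (φ u) (eCls hy hn hi (φ v) A)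
    rw [eCls_eCls, hφ]
  · -- χ
    intro j
    exact Real.log_natCast_nonneg _
  · -- inv
    intro u s hs
    beta_reduce
    rw [hexp]
    exact hI u s hs
  · -- mul_t
    intro a b s hs
    rw [ht]
    beta_reduce
    have h1 := I_add cx (D := mulCls (fin_affS i) (one_affS hi) a b) (V := a) (V' := b)
      le_rfl hs
    have h2 := I_mul_ge cx (D := mulCls (fin_affS i) (one_affS hi) a b) (V := a) (V' := b)
      le_rfl hs
    exact_mod_cast le_antisymm h1 h2
  · -- m_pos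
    intro q
    exact_mod_cast hm1' q
  · -- mono
    intro A A' hAA w q
    refine hLeW _ _ 1 one_ne_zero (fun v hv => ?_) w
    rw [one_mul]
    rw [hMmem] at hv ⊢
    refine Lsp_mono le_rfl (Effective.add' hHy A.eff).1 (fun P hP => ?_) hv
    have := hAA P hP
    change Hy P + A.A P ≤ Hy P + A'.A P
    linarith
  · -- M_f
    intro u A
    obtain ⟨A', J, hJ, hA'⟩ := hMpull (φ u) (hP1 u) A
    refine ⟨A', fun w q => hLeW _ _ (J ^ m q * φ u (g0 q) / g0 q)
      (div_ne_zero (mul_ne_zero (pow_ne_zero _ hJ) (by rw [Ne, map_eq_zero]; exact hg0 q))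
        (hg0 q)) ?_ w⟩
    rintro _ ⟨v, hv, rfl⟩
    exact hA' q v hv
  · -- M_le
    intro A
    obtain ⟨βA, gA, hgA, hdomA⟩ := hdom (Hy + A.A) (Effective.add' hHy A.eff)
    filter_upwards [Filter.eventually_ge_atTop βA] with q hq
    intro s hs
    rw [ht]
    have e1 := I_dom cx (V := M A q) (H := hcls hy hi) (fun v hv => hv)
      (B := m q * β + b q * βA) (f := f ^ m q * gA ^ b q * g0 q)
      (mul_ne_zero (mul_ne_zero (pow_ne_zero _ hf) (pow_ne_zero _ hgA)) (hg0 q))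
      (fun v hv => by
        rw [mul_assoc]
        exact hdomA (m q) (b q) _ ((hMmem A q v).1 hv)) hs
    have e2 : ((m q * β + b q * βA : ℕ) : ℝ) ≤ ((β : ℝ) + 1) * m q := by
      have e3 : m q * β + b q * βA ≤ (β + 1) * m q := by
        have e4 : b q * βA ≤ m q := by
          rw [hmb]
          exact Nat.mul_le_mul_left _ (by omega)
        nlinarith
      exact_mod_cast e3
    calc ((I (M A q ::ₘ s) : ℕ) : ℝ) ≤
          ((m q * β + b q * βA : ℕ) : ℝ) *
          (I (hcls hy hi ::ₘ s) : ℝ) := by exact_mod_cast e1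
      _ ≤ ((β : ℝ) + 1) * m q * (I (hcls hy hi ::ₘ s) : ℝ) :=
        mul_le_mul_of_nonneg_right e2 (Nat.cast_nonneg _)
  · -- eps
    intro u
    refine ⟨zeroE y, ?_⟩
    obtain ⟨Z, hZ⟩ : ∃ Z : EffT y, Z = zeroE y := ⟨_, rfl⟩
    rw [← hZ]
    have e1 := (Filter.tendsto_add_atTop_nat 1).eventually (heps (φ u))
    filter_upwards [e1] with q hq
    rw [← hm] at hq
    have e6 : Le n t 1 (eCls hy hn hi (φ u) (B (q + 1))) (eCls hy hn hi (φ u) (M Z q)) := by
      intro s hs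
      rw [ht, one_mul]
      refine Nat.cast_le.2 (I_mono cx (g := 1) one_ne_zero ?_ hs)
      rintro _ ⟨v, hv, rfl⟩
      rw [one_mul]
      exact ⟨v, hBM Z q v hv, rfl⟩
    have e7 := e6.rep zero_le_one ν (Multiset.replicate (n - ν) (hcls hy hi))
      (by rw [Multiset.card_replicate]; omega)
    rw [one_pow, one_mul, ht] at e7
    rw [ht]
    exact hq.trans e7

end Pool.Agent.N227.SE
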